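import Mathlib

/-! Cut-off functions and gluing. -/

open scoped Topology ContDiff Manifold
open Set Metric Bundle

noncomputable section

namespace Pool.Agent.Helper186

set_option linter.unusedSectionVars false

variable {E : Type*} [NormedAddCommGroup E] [NormedSpace ℝ E] [FiniteDimensional ℝ E]
  {H : Type*} [TopologicalSpace H] {I : ModelWithCorners ℝ E H}
  {M : Type*} [TopologicalSpace M] [ChartedSpace H M] [IsManifold I ∞ M]

/-- Compactly supported smooth cut-off functions. -/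
theorem exists_cutoff (I : ModelWithCorners ℝ E H) [IsManifold I ∞ M]
    [T2Space M] [SigmaCompactSpace M] {K U : Set M}
    (hK : IsCompact K) (hU : IsOpen U) (hKU : K ⊆ U) :
    ∃ (χ : M → ℝ) (K' : Set M), ContMDiff I 𝓘(ℝ, ℝ) ∞ χ ∧ IsCompact K' ∧ K' ⊆ U ∧
      (∀ᶠ x in 𝓝ˢ K, χ x = 1) ∧ (∀ x ∉ K', χ x = 0) := by
  have : LocallyCompactSpace H := I.locallyCompactSpace
  have : LocallyCompactSpace M := ChartedSpace.locallyCompactSpace H M
  obtain ⟨K', hK', h1, h2⟩ := exists_compact_between hK hU hKU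
  obtain ⟨f, hf1, hf2, -⟩ := exists_contMDiffMap_one_nhds_of_subset_interior I (n := ⊤)
    hK.isClosed h1
  exact ⟨f, K', f.contMDiff, hK', h2, hf1, hf2⟩

/-- Multiplication by a cut-off function gives a globally defined smooth function. -/
lemma contMDiff_cutoff_mul {K' U : Set M} (hK' : IsClosed K') (hU : IsOpen U) (hKU : K' ⊆ U)
    {χ f : M → ℝ} (hχ : ContMDiff I 𝓘(ℝ, ℝ) ∞ χ) (hf : ContMDiffOn I 𝓘(ℝ, ℝ) ∞ f U)
    (hχ0 : ∀ x ∉ K', χ x = 0) : ContMDiff I 𝓘(ℝ, ℝ) ∞ (fun x => χ x * f x) := by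
  intro x
  by_cases hx : x ∈ U
  · exact (hχ x).mul (hf.contMDiffAt (hU.mem_nhds hx))
  · have hx' : x ∈ K'ᶜ := fun h => hx (hKU h)
    refine (contMDiffAt_const (c := (0:ℝ))).congr_of_eventuallyEq ?_
    filter_upwards [hK'.isOpen_compl.mem_nhds hx'] with y hy
    rw [hχ0 y hy, zero_mul]

/-- A smooth function on an open set can be modified outside a compact set to become
a compactly supported smooth function. -/
theorem exists_extension [T2Space M] [SigmaCompactSpace M] {K U : Set M}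
    (hK : IsCompact K) (hU : IsOpen U) (hKU : K ⊆ U) {f : M → ℝ}
    (hf : ContMDiffOn I 𝓘(ℝ, ℝ) ∞ f U) :
    ∃ (F : M → ℝ) (K' : Set M), ContMDiff I 𝓘(ℝ, ℝ) ∞ F ∧ IsCompact K' ∧ K' ⊆ U ∧
      (∀ᶠ x in 𝓝ˢ K, F x = f x) ∧ (∀ x ∉ K', F x = 0) := by
  obtain ⟨χ, K', hχ, hK', h1, h2, h3⟩ := exists_cutoff I hK hU hKU
  refine ⟨fun x => χ x * f x, K', contMDiff_cutoff_mul hK'.isClosed hU h1 hχ hf h3, hK', h1, ?_, ?_⟩
  · filter_upwards [h2] with x hx
    rw [hx, one_mul]
  · intro x hx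
    simp only [h3 x hx, zero_mul]

section glue

variable {E' : Type*} [NormedAddCommGroup E'] [NormedSpace ℝ E']
  {H' : Type*} [TopologicalSpace H'] {J : ModelWithCorners ℝ E' H'}
  {N : Type*} [TopologicalSpace N] [ChartedSpace H' N]

/-- Gluing smooth maps. -/
lemma contMDiff_of_locally {F : M → N} {ι : Type*} {U : ι → Set M} {f : ι → M → N}
    (hU : ∀ n, IsOpen (U n)) (hcov : ∀ x, ∃ n, x ∈ U n)
    (hf : ∀ n, ContMDiffOn I J ∞ (f n) (U n)) (hF : ∀ n, ∀ x ∈ U n, F x = f n x) :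
    ContMDiff I J ∞ F := by
  intro x
  obtain ⟨n, hn⟩ := hcov x
  refine ((hf n).contMDiffAt ((hU n).mem_nhds hn)).congr_of_eventuallyEq ?_
  filter_upwards [(hU n).mem_nhds hn] with y hy
  exact hF n y hy

end glue

end Pool.Agent.Helper186
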