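import Mathlib

/-! One-forms on manifolds, their exterior derivative, and the pull back formula. -/

open scoped Topology ContDiff Manifold
open Set Metric Bundle

noncomputable section

namespace Pool.Agent.Helper186

set_option linter.unusedSectionVars false

variable {E : Type*} [NormedAddCommGroup E] [NormedSpace ℝ E]
  {H : Type*} [TopologicalSpace H] {I : ModelWithCorners ℝ E H}
  {M : Type*} [TopologicalSpace M] [ChartedSpace H M]

variable (I) in
/-- The expression of the one-form `α` in the preferred chart at `x`, as a function on the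
model space with values in linear forms. -/
def chartForm (α : (x : M) → TangentSpace I x →L[ℝ] ℝ) (x : M) (y : E) : E →L[ℝ] ℝ :=
  (α ((extChartAt I x).symm y)).comp (mfderiv 𝓘(ℝ, E) I (extChartAt I x).symm y)

variable (I) in
/-- The exterior derivative `dα` of the one-form `α`, at the point `x`, evaluated on the tangent
vectors `u` and `v`. It is computed in the preferred chart at `x`. -/
def extDer (α : (x : M) → TangentSpace I x →L[ℝ] ℝ) (x : M) (u v : TangentSpace I x) : ℝ :=
  fderiv ℝ (chartForm I α x) (extChartAt I x x) u v -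
    fderiv ℝ (chartForm I α x) (extChartAt I x x) v u

variable {E' : Type*} [NormedAddCommGroup E'] [NormedSpace ℝ E']
  {H' : Type*} [TopologicalSpace H'] {J : ModelWithCorners ℝ E' H'}
  {N : Type*} [TopologicalSpace N] [ChartedSpace H' N]

lemma tangentMap_congr_of_eventuallyEq {f g : N → M} {v : TangentBundle J N}
    (h : f =ᶠ[𝓝 v.1] g) : tangentMap J I f v = tangentMap J I g v := by
  have h1 : f v.1 = g v.1 := h.eq_of_nhds
  have h2 := h.mfderiv_eq (I := J) (I' := I)
  refine TotalSpace.ext h1 ?_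
  simp only [tangentMap]
  rw [h2]
  rfl

variable [IsManifold I ∞ M] [IsManifold J ∞ N]

lemma contMDiffAt_tangentMap {f : N → M} {U : Set N}
    (hU : IsOpen U) (hf : ContMDiffOn J I ∞ f U) {v : TangentBundle J N} (hv : v.1 ∈ U) :
    ContMDiffAt J.tangent I.tangent ∞ (tangentMap J I f) v := by
  have h1 := hf.contMDiffOn_tangentMapWithin (m := ∞) (by simp) hU.uniqueMDiffOn
  have hU' : IsOpen (TotalSpace.proj ⁻¹' U : Set (TangentBundle J N)) :=
    hU.preimage (FiberBundle.continuous_proj _ _)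
  refine (h1.contMDiffAt (hU'.mem_nhds hv)).congr_of_eventuallyEq ?_
  filter_upwards [hU'.mem_nhds hv] with w hw
  exact (tangentMapWithin_eq_tangentMap (hU.uniqueMDiffOn _ hw)
    ((hf.contMDiffAt (hU.mem_nhds hw)).mdifferentiableAt (by simp))).symm

/-- Smoothness of a one-form, as a function on the tangent bundle. -/
def SmoothForm (α : (x : M) → TangentSpace I x →L[ℝ] ℝ) : Prop :=
  ContMDiff I.tangent 𝓘(ℝ, ℝ) ∞ (fun v : TangentBundle I M => α v.1 v.2)

lemma SmoothForm.comp {α : (x : M) → TangentSpace I x →L[ℝ] ℝ} (hα : SmoothForm α)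
    {w : N → TangentBundle I M} {p : N} {n : ℕ∞ω} (hw : ContMDiffAt J I.tangent n w p)
    (hn : n ≤ ∞) :
    ContMDiffAt J 𝓘(ℝ, ℝ) n (fun q => α (w q).1 (w q).2) p :=
  ((hα (w p)).of_le hn).comp p hw

variable [I.Boundaryless]

lemma chartForm_apply (α : (x : M) → TangentSpace I x →L[ℝ] ℝ) (x : M) (y w : E) :
    chartForm I α x y w = (fun v : TangentBundle I M => α v.1 v.2)
      (tangentMap 𝓘(ℝ, E) I (extChartAt I x).symm (⟨y, w⟩ : TangentBundle 𝓘(ℝ, E) E)) := rfl

/-- The constant section `w` of the tangent bundle of a vector space is smooth. -/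
lemma contMDiff_constSection (w : E) : ContMDiff 𝓘(ℝ, E) 𝓘(ℝ, E).tangent ∞
    (fun y : E => (⟨y, w⟩ : TangentBundle 𝓘(ℝ, E) E)) :=
  contMDiff_vectorSpace_iff_contDiff.2 contDiff_const

lemma contDiffOn_chartForm [FiniteDimensional ℝ E] {α : (x : M) → TangentSpace I x →L[ℝ] ℝ}
    (hα : SmoothForm α) (x : M) :
    ContDiffOn ℝ ∞ (chartForm I α x) (extChartAt I x).target := by
  rw [contDiffOn_clm_apply]
  intro w
  rw [← contMDiffOn_iff_contDiffOn]
  intro y hy
  apply ContMDiffAt.contMDiffWithinAt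
  have h1 : ContMDiffAt 𝓘(ℝ, E).tangent I.tangent ∞
      (tangentMap 𝓘(ℝ, E) I (extChartAt I x).symm) (⟨y, w⟩ : TangentBundle 𝓘(ℝ, E) E) :=
    contMDiffAt_tangentMap (isOpen_extChartAt_target x) (contMDiffOn_extChartAt_symm x) hy
  have h2 : ContMDiffAt 𝓘(ℝ, E) I.tangent ∞ (fun y : E =>
      (tangentMap 𝓘(ℝ, E) I (extChartAt I x).symm (⟨y, w⟩ : TangentBundle 𝓘(ℝ, E) E))) y :=
    ContMDiffAt.comp y h1 (contMDiff_constSection w y)
  exact hα.comp h2 le_rfl

lemma mfderiv_extChartAt_self (x : M) (v : TangentSpace I x) :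
    mfderiv I 𝓘(ℝ, E) (extChartAt I x) x v = v := by
  have h := mfderiv_chartAt_eq_tangentCoordChange (I := I) (mem_chart_source H x)
  have h2 := (hasMFDerivAt_extChartAt (I := I) (mem_chart_source H x)).mfderiv
  have h3 : mfderiv I 𝓘(ℝ, E) (extChartAt I x) x v = tangentCoordChange I x x x v := by
    rw [h2, h]; rfl
  have h4 : tangentCoordChange I x x x (v : E) = v :=
    tangentCoordChange_self (mem_extChartAt_source x)
  exact h3.trans h4

/-- **Pull back formula**: for a smooth map `S` from a vector space `P` to `M`,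
`dα (S_* u, S_* v) = ∂_u (α (S_* v)) - ∂_v (α (S_* u))`. -/
theorem extDer_pullback [FiniteDimensional ℝ E] {α : (x : M) → TangentSpace I x →L[ℝ] ℝ}
    (hα : SmoothForm α) {P : Type*} [NormedAddCommGroup P] [NormedSpace ℝ P] {S : P → M}
    {U : Set P} (hU : IsOpen U) (hS : ContMDiffOn 𝓘(ℝ, P) I ∞ S U) {p : P} (hp : p ∈ U)
    (u v : P) :
    extDer I α (S p) (mfderiv 𝓘(ℝ, P) I S p u) (mfderiv 𝓘(ℝ, P) I S p v) =
      fderiv ℝ (fun q => α (S q) (mfderiv 𝓘(ℝ, P) I S q v)) p u -
        fderiv ℝ (fun q => α (S q) (mfderiv 𝓘(ℝ, P) I S q u)) p v := by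
  set x := S p with hx
  set φ := extChartAt I x with hφ
  set T : P → E := fun q => φ (S q) with hT
  -- the open set on which everything is defined
  obtain ⟨U', hU'o, hpU', hU'⟩ : ∃ U' : Set P, IsOpen U' ∧ p ∈ U' ∧
      ∀ q ∈ U', q ∈ U ∧ S q ∈ φ.source := by
    have h1 : ∀ᶠ q in 𝓝 p, q ∈ U ∧ S q ∈ φ.source := by
      have h2 : ∀ᶠ q in 𝓝 p, q ∈ U := hU.mem_nhds hp
      have := (hS.contMDiffAt (hU.mem_nhds hp)).continuousAt
      exact h2.and (this.preimage_mem_nhds (extChartAt_source_mem_nhds x))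
    obtain ⟨U', h, h2, h3⟩ := _root_.mem_nhds_iff.1 h1
    exact ⟨U', h2, h3, h⟩
  have hSat : ∀ q ∈ U', ContMDiffAt 𝓘(ℝ, P) I ∞ S q := fun q hq =>
    hS.contMDiffAt (hU.mem_nhds (hU' q hq).1)
  have hTat : ∀ q ∈ U', ContDiffAt ℝ ∞ T q := by
    intro q hq
    rw [← contMDiffAt_iff_contDiffAt]
    have hs : S q ∈ (chartAt H x).source := by
      have := (hU' q hq).2
      rwa [hφ, extChartAt_source] at this
    exact (contMDiffAt_extChartAt' hs).comp q (hSat q hq)
  have key : ∀ q ∈ U', ∀ w : P, α (S q) (mfderiv 𝓘(ℝ, P) I S q w) =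
      chartForm I α x (T q) (fderiv ℝ T q w) := by
    intro q hq w
    have e1 : S =ᶠ[𝓝 q] φ.symm ∘ T := by
      filter_upwards [hU'o.mem_nhds hq] with q' hq'
      exact (φ.left_inv (hU' q' hq').2).symm
    have hTq : T q ∈ φ.target := φ.map_source (hU' q hq).2
    have e2 := tangentMap_congr_of_eventuallyEq (J := 𝓘(ℝ, P)) (I := I)
      (v := (⟨q, w⟩ : TangentBundle 𝓘(ℝ, P) P)) e1
    have e3 : tangentMap 𝓘(ℝ, P) I (φ.symm ∘ T) (⟨q, w⟩ : TangentBundle 𝓘(ℝ, P) P) =
        tangentMap 𝓘(ℝ, E) I φ.symm (tangentMap 𝓘(ℝ, P) 𝓘(ℝ, E) T ⟨q, w⟩) := by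
      apply tangentMap_comp_at
      · exact ((contMDiffOn_extChartAt_symm (n := ∞) x).contMDiffAt
          ((isOpen_extChartAt_target x).mem_nhds hTq)).mdifferentiableAt (by simp)
      · exact (contMDiffAt_iff_contDiffAt.2 (hTat q hq)).mdifferentiableAt (by simp)
    have e4 : (fun v : TangentBundle I M => α v.1 v.2)
        (tangentMap 𝓘(ℝ, P) I S (⟨q, w⟩ : TangentBundle 𝓘(ℝ, P) P)) =
        (fun v : TangentBundle I M => α v.1 v.2)
        (tangentMap 𝓘(ℝ, E) I φ.symm (tangentMap 𝓘(ℝ, P) 𝓘(ℝ, E) T ⟨q, w⟩)) := by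
      rw [e2, e3]
    rw [chartForm_apply]
    refine e4.trans ?_
    simp only [tangentMap, mfderiv_eq_fderiv]
    rfl
  -- differentiate
  have hder : ∀ u v : P, fderiv ℝ (fun q => α (S q) (mfderiv 𝓘(ℝ, P) I S q v)) p u =
      fderiv ℝ (chartForm I α x) (φ x) (fderiv ℝ T p u) (fderiv ℝ T p v) +
        chartForm I α x (φ x) (fderiv ℝ (fderiv ℝ T) p u v) := by
    intro u v
    have e1 : (fun q => α (S q) (mfderiv 𝓘(ℝ, P) I S q v)) =ᶠ[𝓝 p]
        fun q => chartForm I α x (T q) (fderiv ℝ T q v) := by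
      filter_upwards [hU'o.mem_nhds hpU'] with q hq
      exact key q hq v
    rw [e1.fderiv_eq]
    have hTp : HasFDerivAt T (fderiv ℝ T p) p :=
      ((hTat p hpU').differentiableAt (by simp)).hasFDerivAt
    have hcf : HasFDerivAt (chartForm I α x) (fderiv ℝ (chartForm I α x) (φ x)) (T p) := by
      have : T p ∈ φ.target := φ.map_source (hU' p hpU').2
      exact (((contDiffOn_chartForm hα x).contDiffAt
        ((isOpen_extChartAt_target x).mem_nhds this)).differentiableAt (by simp)).hasFDerivAt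
    have h1 : HasFDerivAt (fun q => chartForm I α x (T q))
        ((fderiv ℝ (chartForm I α x) (φ x)).comp (fderiv ℝ T p)) p := hcf.comp p hTp
    have h2 : HasFDerivAt (fderiv ℝ T) (fderiv ℝ (fderiv ℝ T) p) p :=
      (((hTat p hpU').fderiv_right (m := ∞) (by simp)).differentiableAt
        (by simp)).hasFDerivAt
    have h3 : HasFDerivAt (fun q => fderiv ℝ T q v)
        ((ContinuousLinearMap.apply ℝ E v).comp (fderiv ℝ (fderiv ℝ T) p)) p :=
      (ContinuousLinearMap.apply ℝ E v).hasFDerivAt.comp p h2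
    have h4 := h1.clm_apply h3
    rw [h4.fderiv]
    simp only [add_apply, ContinuousLinearMap.comp_apply,
      ContinuousLinearMap.flip_apply, ContinuousLinearMap.apply_apply]
    rw [add_comm]
  have hsymm : fderiv ℝ (fderiv ℝ T) p u v = fderiv ℝ (fderiv ℝ T) p v u := by
    have := (hTat p hpU').isSymmSndFDerivAt (by
      simp only [minSmoothness_of_isRCLikeNormedField]; exact ENat.LEInfty.out)
    exact this u v
  have hDT : ∀ w : P, fderiv ℝ T p w = mfderiv 𝓘(ℝ, P) I S p w := by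
    intro w
    have h1 : mfderiv 𝓘(ℝ, P) 𝓘(ℝ, E) T p = (mfderiv I 𝓘(ℝ, E) φ (S p)).comp
        (mfderiv 𝓘(ℝ, P) I S p) := by
      apply mfderiv_comp
      · exact (contMDiffAt_extChartAt (n := ∞)).mdifferentiableAt (by simp)
      · exact (hSat p hpU').mdifferentiableAt (by simp)
    rw [← mfderiv_eq_fderiv, h1]
    exact mfderiv_extChartAt_self x _
  rw [hder u v, hder v u, hsymm]
  unfold extDer
  rw [hDT u, hDT v]
  ring

end Pool.Agent.Helper186
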