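import Mathlib

/-! Superposition operators on spaces of continuous maps are smooth. -/

open scoped Topology ContDiff
open Set

noncomputable section

namespace Pool.Agent.Helper186

universe u

section Nemytskii

variable {K : Type*} [TopologicalSpace K] [CompactSpace K]

/-- Pointwise application of a continuous family of continuous linear maps. -/
def ptApply {E G : Type*} [NormedAddCommGroup E] [NormedSpace ℝ E]
    [NormedAddCommGroup G] [NormedSpace ℝ G] :
    C(K, E →L[ℝ] G) →L[ℝ] C(K, E) →L[ℝ] C(K, G) :=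
  LinearMap.mkContinuous₂
    (LinearMap.mk₂ ℝ (fun (A : C(K, E →L[ℝ] G)) (δ : C(K, E)) =>
        (⟨fun k => A k (δ k), by fun_prop⟩ : C(K, G)))
      (by intro A B δ; ext k; simp) (by intro c A δ; ext k; simp)
      (by intro A δ ε; ext k; simp) (by intro c A δ; ext k; simp)) 1
    (by
      intro A δ
      rw [ContinuousMap.norm_le _ (by positivity)]
      intro k
      simp only [LinearMap.mk₂_apply, ContinuousMap.coe_mk, one_mul]
      exact (A k).le_of_opNorm_le_of_le (A.norm_coe_le_norm k) (δ.norm_coe_le_norm k))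

@[simp] lemma ptApply_apply {E G : Type*} [NormedAddCommGroup E] [NormedSpace ℝ E]
    [NormedAddCommGroup G] [NormedSpace ℝ G] (A : C(K, E →L[ℝ] G)) (δ : C(K, E)) (k : K) :
    ptApply A δ k = A k (δ k) := rfl

lemma contDiff_ptApply {E G : Type*} [NormedAddCommGroup E] [NormedSpace ℝ E]
    [NormedAddCommGroup G] [NormedSpace ℝ G] {n : ℕ∞ω} :
    ContDiff ℝ n (ptApply (K := K) (E := E) (G := G)) := by
  have : IsBoundedLinearMap ℝ (ptApply (K := K) (E := E) (G := G)) := by
    refine ⟨⟨fun x y => map_add _ _ _, fun c x => map_smul _ _ _⟩, 1, one_pos, fun A => ?_⟩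
    refine ContinuousLinearMap.opNorm_le_bound _ (by positivity) fun δ => ?_
    rw [ContinuousMap.norm_le _ (by positivity)]
    intro k
    rw [one_mul]
    exact (A k).le_of_opNorm_le_of_le (A.norm_coe_le_norm k) (δ.norm_coe_le_norm k)
  exact this.contDiff

/-- The superposition operator has the expected derivative. -/
lemma hasFDerivAt_comp {E G : Type*} [NormedAddCommGroup E] [NormedSpace ℝ E]
    [NormedAddCommGroup G] [NormedSpace ℝ G] (f : C(E, G)) (f' : C(E, E →L[ℝ] G))
    (hf : ∀ x, HasFDerivAt f (f' x) x) (γ : C(K, E)) :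
    HasFDerivAt (fun γ : C(K, E) => f.comp γ) (ptApply (f'.comp γ)) γ := by
  rw [hasFDerivAt_iff_isLittleO_nhds_zero, Asymptotics.isLittleO_iff]
  intro ε hε
  have hcomp : IsCompact (Set.range γ) := isCompact_range γ.continuous
  have huc := hcomp.uniformContinuousAt_of_continuousAt (f := f')
    (fun a _ => f'.continuous.continuousAt) (Metric.dist_mem_uniformity hε)
  rw [Metric.mem_uniformity_dist] at huc
  obtain ⟨δ, hδ, hδ'⟩ := huc
  have hball : Metric.ball (0 : C(K, E)) δ ∈ 𝓝 (0 : C(K, E)) := Metric.ball_mem_nhds _ hδ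
  filter_upwards [hball] with h hh
  rw [ContinuousMap.norm_le _ (by positivity)]
  intro k
  have hk : ‖h k‖ < δ := lt_of_le_of_lt (h.norm_coe_le_norm k) (by simpa using hh)
  have key : ‖f (γ k + h k) - f (γ k) - (f' (γ k)) (h k)‖ ≤ ε * ‖h k‖ := by
    have hconv : Convex ℝ (Metric.ball (γ k) δ) := convex_ball _ _
    have := hconv.norm_image_sub_le_of_norm_hasFDerivWithin_le' (f := f) (f' := fun x => f' x)
      (φ := f' (γ k)) (C := ε) (x := γ k) (y := γ k + h k)
      (fun x _ => (hf x).hasFDerivWithinAt)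
      (fun x hx => by
        have := @hδ' (γ k) x (by simpa [dist_comm] using hx) (Set.mem_range_self k)
        simp only [mem_ofPred_eq] at this
        rw [dist_comm, dist_eq_norm] at this
        exact this.le)
      (Metric.mem_ball_self hδ)
      (by simpa [dist_eq_norm] using hk)
    simpa using this
  calc ‖(((f.comp (γ + h)) - (f.comp γ) - (ptApply (f'.comp γ)) h : C(K, G))) k‖
      = ‖f (γ k + h k) - f (γ k) - (f' (γ k)) (h k)‖ := by simp
    _ ≤ ε * ‖h k‖ := key
    _ ≤ ε * ‖h‖ := by gcongr; exact h.norm_coe_le_norm k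

theorem contDiff_comp_nat {E : Type u} [NormedAddCommGroup E] [NormedSpace ℝ E] (n : ℕ) :
    ∀ {G : Type u} [NormedAddCommGroup G] [NormedSpace ℝ G] (f : C(E, G)),
      ContDiff ℝ n f → ContDiff ℝ n (fun γ : C(K, E) => f.comp γ) := by
  induction n with
  | zero =>
    intro G _ _ f _
    exact contDiff_zero.2 (ContinuousMap.continuous_postcomp f)
  | succ n ih =>
    intro G _ _ f hf
    have hf1 : ContDiff ℝ ((n : ℕ∞ω) + 1) f := by simpa using hf
    rw [contDiff_succ_iff_fderiv] at hf1
    have hcont : Continuous (fderiv ℝ f) := hf1.2.2.continuous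
    have hd : ∀ x, HasFDerivAt f (fderiv ℝ f x) x := fun x => (hf1.1 x).hasFDerivAt
    have key := hasFDerivAt_comp (K := K) f ⟨fderiv ℝ f, hcont⟩ hd
    have h2 : ContDiff ℝ n (fun γ : C(K, E) =>
        ptApply ((⟨fderiv ℝ f, hcont⟩ : C(E, E →L[ℝ] G)).comp γ)) :=
      (contDiff_ptApply (n := n)).comp (ih ⟨fderiv ℝ f, hcont⟩ hf1.2.2)
    have h3 : ContDiff ℝ ((n : ℕ∞ω) + 1) (fun γ : C(K, E) => f.comp γ) := by
      rw [contDiff_succ_iff_hasFDerivAt]
      exact ⟨_, h2, key⟩
    simpa using h3

end Nemytskii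

end Pool.Agent.Helper186
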