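import Mathlib
import Pool.Agent.H66.L.S8.Helper186.ExtDer
import Pool.Agent.H66.L.S8.Helper186.ParamInt
import Pool.Agent.H66.L.S8.Helper186.TimeFlow

/-! The variation formula for one-forms under families of maps. -/

open scoped Topology ContDiff Manifold
open Set Metric Bundle

noncomputable section

namespace Pool.Agent.Helper186

set_option linter.unusedSectionVars false

variable {E : Type*} [NormedAddCommGroup E] [NormedSpace ℝ E] [FiniteDimensional ℝ E]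
  {H : Type*} [TopologicalSpace H] {I : ModelWithCorners ℝ E H} [I.Boundaryless]
  {M : Type*} [TopologicalSpace M] [ChartedSpace H M] [IsManifold I ∞ M]
  {E' : Type*} [NormedAddCommGroup E'] [NormedSpace ℝ E'] [FiniteDimensional ℝ E']
  {H' : Type*} [TopologicalSpace H'] {J : ModelWithCorners ℝ E' H'} [J.Boundaryless]
  {N : Type*} [TopologicalSpace N] [ChartedSpace H' N] [IsManifold J ∞ N]

variable (I) in
/-- time derivative of a family of maps -/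
def dS (i : ℝ × N → M) (s : ℝ) (x : N) : TangentSpace I (i (s, x)) :=
  mfderiv 𝓘(ℝ, ℝ) I (fun σ => i (σ, x)) s (1 : ℝ)

variable (I J) in
/-- space derivative of a family of maps -/
def dX (i : ℝ × N → M) (s : ℝ) (x : N) (u : TangentSpace J x) : TangentSpace I (i (s, x)) :=
  mfderiv J I (fun x' => i (s, x')) x u

/-- The unit time section is smooth. -/
lemma contMDiff_unitSection : ContMDiff (𝓘(ℝ, ℝ).prod J) (𝓘(ℝ, ℝ).prod J).tangent ∞
    (fun p : ℝ × N => (⟨p, ((1:ℝ), (0:E'))⟩ : TangentBundle (𝓘(ℝ, ℝ).prod J) (ℝ × N))) := by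
  have h0 : ContMDiff (𝓘(ℝ, ℝ).prod J) J.tangent ∞
      (fun p : ℝ × N => (⟨p.2, (0:E')⟩ : TangentBundle J N)) := by
    have h1 : ContMDiff J J.tangent ∞ (fun x : N => (⟨x, (0:E')⟩ : TangentBundle J N)) :=
      contMDiff_zeroSection ℝ (TangentSpace J)
    exact h1.comp contMDiff_snd
  exact contMDiff_timeField (Y := fun _ _ => 0) h0

lemma mfderiv_unit {i : ℝ × N → M} {p : ℝ × N}
    (hi : MDifferentiableAt (𝓘(ℝ, ℝ).prod J) I i p) :
    mfderiv (𝓘(ℝ, ℝ).prod J) I i p (((1:ℝ), (0:E')) : ℝ × E') = dS I i p.1 p.2 := by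
  rw [mfderiv_prod_eq_add_apply hi]
  have h1 : mfderiv J I (fun z : N => i (p.1, z)) p.2 (0 : E') = 0 := map_zero _
  refine (congrArg₂ (· + ·) rfl h1).trans ?_
  exact add_zero _

lemma mfderiv_space {i : ℝ × N → M} {p : ℝ × N}
    (hi : MDifferentiableAt (𝓘(ℝ, ℝ).prod J) I i p) (u : TangentSpace J p.2) :
    mfderiv (𝓘(ℝ, ℝ).prod J) I i p (((0:ℝ), (u:E')) : ℝ × E') = dX I J i p.1 p.2 u := by
  rw [mfderiv_prod_eq_add_apply hi]
  have h1 : mfderiv 𝓘(ℝ, ℝ) I (fun z : ℝ => i (z, p.2)) p.1 (0 : ℝ) = 0 := map_zero _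
  refine (congrArg₂ (· + ·) h1 rfl).trans ?_
  exact zero_add _

lemma tangentMap_unit {i : ℝ × N → M} {p : ℝ × N}
    (hi : MDifferentiableAt (𝓘(ℝ, ℝ).prod J) I i p) :
    tangentMap (𝓘(ℝ, ℝ).prod J) I i
      (⟨p, ((1:ℝ), (0:E'))⟩ : TangentBundle (𝓘(ℝ, ℝ).prod J) (ℝ × N)) =
      (⟨i p, dS I i p.1 p.2⟩ : TangentBundle I M) := by
  simp only [tangentMap]
  rw [mfderiv_unit hi]

/-- The time derivative of a smooth family is smooth. -/
lemma contMDiffAt_dS {i : ℝ × N → M} {D : Set (ℝ × N)} (hD : IsOpen D)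
    (hi : ContMDiffOn (𝓘(ℝ, ℝ).prod J) I ∞ i D) {p : ℝ × N} (hp : p ∈ D) :
    ContMDiffAt (𝓘(ℝ, ℝ).prod J) I.tangent ∞
      (fun q : ℝ × N => (⟨i q, dS I i q.1 q.2⟩ : TangentBundle I M)) p := by
  have h1 := (contMDiffAt_tangentMap hD hi
    (v := (⟨p, ((1:ℝ), (0:E'))⟩ : TangentBundle (𝓘(ℝ, ℝ).prod J) (ℝ × N))) hp).comp p
    (contMDiff_unitSection p)
  refine h1.congr_of_eventuallyEq ?_
  filter_upwards [hD.mem_nhds hp] with q hq
  exact (tangentMap_unit ((hi.contMDiffAt (hD.mem_nhds hq)).mdifferentiableAt (by simp))).symm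

/-- **Variation formula**: the derivative of `s ↦ α (D(i_s) u)` is
`dα(∂_s i, D(i_s) u) + D_u (α (∂_s i))`. -/
theorem hasDerivAt_variation {α : (x : M) → TangentSpace I x →L[ℝ] ℝ} (hα : SmoothForm α)
    {i : ℝ × N → M} {D : Set (ℝ × N)} (hD : IsOpen D)
    (hi : ContMDiffOn (𝓘(ℝ, ℝ).prod J) I ∞ i D) {s : ℝ} {x : N} (hsx : (s, x) ∈ D)
    (u : TangentSpace J x) :
    HasDerivAt (fun σ => α (i (σ, x)) (dX I J i σ x u))
      (extDer I α (i (s, x)) (dS I i s x) (dX I J i s x u) +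
        (show ℝ from mfderiv J 𝓘(ℝ, ℝ) (fun x' => α (i (s, x')) (dS I i s x')) x u)) s := by
  suffices h : ∀ x₁ : N, x ∈ (chartAt H' x₁).source →
    HasDerivAt (fun σ => α (i (σ, x)) (dX I J i σ x u))
      (extDer I α (i (s, x)) (dS I i s x) (dX I J i s x u) +
        (show ℝ from mfderiv J 𝓘(ℝ, ℝ) (fun x' => α (i (s, x')) (dS I i s x')) x u)) s from
    h x (mem_chart_source H' x)
  intro x₁ hx₁
  set ψ := extChartAt J x₁ with hψ
  have hx' : x ∈ ψ.source := by rwa [hψ, extChartAt_source]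
  obtain ⟨y, hy, hyx⟩ : ∃ y ∈ ψ.target, ψ.symm y = x := ⟨ψ x, ψ.map_source hx', ψ.left_inv hx'⟩
  subst hyx
  -- the tangent vector in coordinates
  set w : E' := (trivializationAt E' (TangentSpace J) x₁).continuousLinearMapAt ℝ (ψ.symm y) u
    with hw
  have hwu : mfderiv 𝓘(ℝ, E') J ψ.symm y w = u := by
    have h1 := TangentBundle.symmL_trivializationAt (I := J) hx₁
    have h2 : (trivializationAt E' (TangentSpace J) x₁).symmL ℝ (ψ.symm y) w = u :=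
      (trivializationAt E' (TangentSpace J) x₁).symmL_continuousLinearMapAt (R := ℝ) hx₁ u
    rw [h1, J.range_eq_univ, mfderivWithin_univ] at h2
    rw [← hψ, ψ.right_inv hy] at h2
    exact h2
  -- the map in coordinates
  set S : ℝ × E' → M := fun q => i (q.1, ψ.symm q.2) with hS
  have hψs : ContMDiffOn 𝓘(ℝ, E') J ∞ ψ.symm ψ.target := contMDiffOn_extChartAt_symm x₁
  have hψo : IsOpen ψ.target := isOpen_extChartAt_target x₁
  have hmap : ContMDiffOn 𝓘(ℝ, ℝ × E') (𝓘(ℝ, ℝ).prod J) ∞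
      (fun q : ℝ × E' => (q.1, ψ.symm q.2)) (univ ×ˢ ψ.target) := by
    apply ContMDiffOn.prodMk
    · exact contDiff_fst.contMDiff.contMDiffOn
    · exact hψs.comp contDiff_snd.contMDiff.contMDiffOn (fun q hq => hq.2)
  have hopen0 : IsOpen ((univ : Set ℝ) ×ˢ ψ.target) := isOpen_univ.prod hψo
  set U : Set (ℝ × E') := (univ ×ˢ ψ.target) ∩ (fun q : ℝ × E' => (q.1, ψ.symm q.2)) ⁻¹' D with hU
  have hUo : IsOpen U := hmap.continuousOn.isOpen_inter_preimage hopen0 hD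
  have hSs : ContMDiffOn 𝓘(ℝ, ℝ × E') I ∞ S U :=
    hi.comp (hmap.mono inter_subset_left) (fun q hq => hq.2)
  have hsy : (s, y) ∈ U := ⟨⟨mem_univ _, hy⟩, hsx⟩
  -- derivatives of `S`
  have hS1 : ∀ q ∈ U, mfderiv 𝓘(ℝ, ℝ × E') I S q ((1:ℝ), (0:E')) = dS I i q.1 (ψ.symm q.2) := by
    intro q hq
    have h1 : MDifferentiableAt 𝓘(ℝ, ℝ × E') I S q :=
      (hSs.contMDiffAt (hUo.mem_nhds hq)).mdifferentiableAt (by simp)
    have h2 : HasMFDerivAt 𝓘(ℝ, ℝ) 𝓘(ℝ, ℝ × E') (fun σ : ℝ => (σ, q.2)) q.1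
        (ContinuousLinearMap.inl ℝ ℝ E') :=
      (hasFDerivAt_prodMk_left q.1 q.2).hasMFDerivAt
    have h3 := (HasMFDerivAt.comp q.1 (g := S) (f := fun σ : ℝ => (σ, q.2))
      h1.hasMFDerivAt h2).mfderiv
    have h4 : dS I i q.1 (ψ.symm q.2) = mfderiv 𝓘(ℝ, ℝ) I (S ∘ fun σ : ℝ => (σ, q.2)) q.1
        (1:ℝ) := rfl
    rw [h4, h3]
    rfl
  have hS2 : ∀ q ∈ U, ∀ w : E', mfderiv 𝓘(ℝ, ℝ × E') I S q ((0:ℝ), w) =
      dX I J i q.1 (ψ.symm q.2) (mfderiv 𝓘(ℝ, E') J ψ.symm q.2 w) := by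
    intro q hq w
    have h1 : MDifferentiableAt 𝓘(ℝ, ℝ × E') I S q :=
      (hSs.contMDiffAt (hUo.mem_nhds hq)).mdifferentiableAt (by simp)
    have h2 : HasMFDerivAt 𝓘(ℝ, E') 𝓘(ℝ, ℝ × E') (fun z : E' => (q.1, z)) q.2
        (ContinuousLinearMap.inr ℝ ℝ E') :=
      (hasFDerivAt_prodMk_right q.1 q.2).hasMFDerivAt
    have h3 := (HasMFDerivAt.comp q.2 (g := S) (f := fun z : E' => (q.1, z))
      h1.hasMFDerivAt h2).mfderiv
    have h5 : MDifferentiableAt J I (fun x' => i (q.1, x')) (ψ.symm q.2) := by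
      have h6 : MDifferentiableAt (𝓘(ℝ, ℝ).prod J) I i (q.1, ψ.symm q.2) :=
        (hi.contMDiffAt (hD.mem_nhds hq.2)).mdifferentiableAt (by simp)
      exact h6.comp (ψ.symm q.2) (mdifferentiableAt_const.prodMk mdifferentiableAt_id)
    have h7 : MDifferentiableAt 𝓘(ℝ, E') J ψ.symm q.2 :=
      (hψs.contMDiffAt (hψo.mem_nhds hq.1.2)).mdifferentiableAt (by simp)
    have h8 := mfderiv_comp (I := 𝓘(ℝ, E')) (I' := J) (I'' := I) q.2 h5 h7
    have h9 : (S ∘ fun z : E' => (q.1, z)) = (fun x' => i (q.1, x')) ∘ ψ.symm := rfl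
    rw [h9, h8] at h3
    have h10 := DFunLike.congr_fun h3 w
    exact h10.symm
  -- apply the pull back formula
  have key := extDer_pullback hα hUo hSs hsy ((1:ℝ), (0:E')) ((0:ℝ), w)
  have e1 := hS1 (s, y) hsy
  have e2 := hS2 (s, y) hsy w
  simp only at e1 e2
  rw [hwu] at e2
  rw [e1, e2] at key
  change extDer I α (i (s, ψ.symm y)) (dS I i s (ψ.symm y)) (dX I J i s (ψ.symm y) u) = _ at key
  rw [key]
  -- smoothness of the two functions
  have hsec : ∀ c : ℝ × E', ContMDiffAt 𝓘(ℝ, ℝ × E') 𝓘(ℝ, ℝ) ∞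
      (fun q => α (S q) (mfderiv 𝓘(ℝ, ℝ × E') I S q c)) (s, y) := by
    intro c
    have h1 : ContMDiffAt 𝓘(ℝ, ℝ × E') I.tangent ∞ (fun q => tangentMap 𝓘(ℝ, ℝ × E') I S
        (⟨q, c⟩ : TangentBundle 𝓘(ℝ, ℝ × E') (ℝ × E'))) (s, y) :=
      (contMDiffAt_tangentMap hUo hSs (v := (⟨(s, y), c⟩ : TangentBundle 𝓘(ℝ, ℝ × E') (ℝ × E')))
        hsy).comp (s, y) (contMDiff_constSection c (s, y))
    exact hα.comp h1 le_rfl
  have hUs : ∀ᶠ σ in 𝓝 s, (σ, y) ∈ U := by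
    have : ContinuousAt (fun σ : ℝ => (σ, y)) s := by fun_prop
    exact this.preimage_mem_nhds (hUo.mem_nhds hsy)
  have hUy : ∀ᶠ z in 𝓝 y, (s, z) ∈ U := by
    have : ContinuousAt (fun z : E' => (s, z)) y := by fun_prop
    exact this.preimage_mem_nhds (hUo.mem_nhds hsy)
  -- first term
  have hd1 : HasDerivAt (fun σ => α (i (σ, ψ.symm y)) (dX I J i σ (ψ.symm y) u))
      (fderiv ℝ (fun q => α (S q) (mfderiv 𝓘(ℝ, ℝ × E') I S q ((0:ℝ), w))) (s, y)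
        ((1:ℝ), (0:E'))) s := by
    have h1 : DifferentiableAt ℝ (fun q => α (S q) (mfderiv 𝓘(ℝ, ℝ × E') I S q ((0:ℝ), w)))
        (s, y) := (contMDiffAt_iff_contDiffAt.1 (hsec _)).differentiableAt (by simp)
    have h2 := h1.hasFDerivAt.comp_hasDerivAt s
      ((hasFDerivAt_prodMk_left s y).hasDerivAt)
    have h3 : (fun σ => α (i (σ, ψ.symm y)) (dX I J i σ (ψ.symm y) u)) =ᶠ[𝓝 s]
        (fun q => α (S q) (mfderiv 𝓘(ℝ, ℝ × E') I S q ((0:ℝ), w))) ∘ (fun σ => (σ, y)) := by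
      filter_upwards [hUs] with σ hσ
      have := hS2 (σ, y) hσ w
      simp only at this
      rw [hwu] at this
      simp only [Function.comp]
      rw [this]
    refine (h2.congr_of_eventuallyEq h3).congr_deriv ?_
    simp
  -- second term
  have hd2 : (show ℝ from mfderiv J 𝓘(ℝ, ℝ) (fun x' => α (i (s, x')) (dS I i s x')) (ψ.symm y) u) =
      fderiv ℝ (fun q => α (S q) (mfderiv 𝓘(ℝ, ℝ × E') I S q ((1:ℝ), (0:E')))) (s, y)
        ((0:ℝ), w) := by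
    have h1 : DifferentiableAt ℝ
        (fun q => α (S q) (mfderiv 𝓘(ℝ, ℝ × E') I S q ((1:ℝ), (0:E')))) (s, y) :=
      (contMDiffAt_iff_contDiffAt.1 (hsec _)).differentiableAt (by simp)
    have h2 := (h1.hasFDerivAt.comp y (hasFDerivAt_prodMk_right s y)).fderiv
    have hG : MDifferentiableAt J 𝓘(ℝ, ℝ) (fun x' => α (i (s, x')) (dS I i s x')) (ψ.symm y) := by
      have h3 : ContMDiffAt (𝓘(ℝ, ℝ).prod J) I.tangent ∞
        (fun q : ℝ × N => (⟨i q, dS I i q.1 q.2⟩ : TangentBundle I M)) (s, ψ.symm y) :=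
        contMDiffAt_dS hD hi hsx
      have h4 : ContMDiffAt (𝓘(ℝ, ℝ).prod J) 𝓘(ℝ, ℝ) ∞
        (fun q : ℝ × N => α (i q) (dS I i q.1 q.2)) (s, ψ.symm y) := hα.comp h3 le_rfl
      have h5 : ContMDiffAt J 𝓘(ℝ, ℝ) ∞ (fun x' => α (i (s, x')) (dS I i s x')) (ψ.symm y) :=
        h4.comp (ψ.symm y) (contMDiffAt_const.prodMk contMDiffAt_id)
      exact h5.mdifferentiableAt (by simp)
    have h7 : MDifferentiableAt 𝓘(ℝ, E') J ψ.symm y :=
      (hψs.contMDiffAt (hψo.mem_nhds hy)).mdifferentiableAt (by simp)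
    have h8 := mfderiv_comp (I := 𝓘(ℝ, E')) (I' := J) (I'' := 𝓘(ℝ, ℝ)) y hG h7
    have h9 := DFunLike.congr_fun h8 w
    have h10 : mfderiv J 𝓘(ℝ, ℝ) (fun x' => α (i (s, x')) (dS I i s x')) (ψ.symm y) u =
        mfderiv 𝓘(ℝ, E') 𝓘(ℝ, ℝ) ((fun x' => α (i (s, x')) (dS I i s x')) ∘ ψ.symm) y w := by
      exact (h9.trans (congrArg (mfderiv J 𝓘(ℝ, ℝ)
        (fun x' => α (i (s, x')) (dS I i s x')) (ψ.symm y)) hwu)).symm
    have h11 : ((fun x' => α (i (s, x')) (dS I i s x')) ∘ ψ.symm) =ᶠ[𝓝 y]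
        (fun q => α (S q) (mfderiv 𝓘(ℝ, ℝ × E') I S q ((1:ℝ), (0:E')))) ∘ (fun z => (s, z)) := by
      filter_upwards [hUy] with z hz
      have := hS1 (s, z) hz
      simp only [Function.comp]
      rw [this]
    refine h10.trans ?_
    rw [mfderiv_eq_fderiv, h11.fderiv_eq, h2]
    rfl
  refine hd1.congr_deriv ?_
  rw [hd2]
  ring

end Pool.Agent.Helper186
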