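import Mathlib
import Pool.Agent.H66.L.S8.Helper186.Hamiltonian

/-! Calculus of pull backs of one-forms, cut-off functions and isotopies. -/

open scoped Topology ContDiff Manifold
open Set Metric Bundle

noncomputable section

namespace Pool.Agent.Helper186

set_option linter.unusedSectionVars false

universe u

section pull

variable {E : Type*} [NormedAddCommGroup E] [NormedSpace ℝ E]
  {H : Type*} [TopologicalSpace H] {I : ModelWithCorners ℝ E H}
  {M : Type*} [TopologicalSpace M] [ChartedSpace H M]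
  {E' : Type*} [NormedAddCommGroup E'] [NormedSpace ℝ E']
  {H' : Type*} [TopologicalSpace H'] {J : ModelWithCorners ℝ E' H'}
  {N : Type*} [TopologicalSpace N] [ChartedSpace H' N]
  {E'' : Type*} [NormedAddCommGroup E''] [NormedSpace ℝ E'']
  {H'' : Type*} [TopologicalSpace H''] {J' : ModelWithCorners ℝ E'' H''}
  {P : Type*} [TopologicalSpace P] [ChartedSpace H'' P]

lemma form_congr' (α : (x : M) → TangentSpace I x →L[ℝ] ℝ) {v w : TangentBundle I M} (h : v = w) :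
    α v.1 v.2 = α w.1 w.2 := by rw [h]

/-- `f` pulls `β` back to `c α + dk` at the point `x`. -/
def PB (α : (x : M) → TangentSpace I x →L[ℝ] ℝ) (β : (x : N) → TangentSpace J x →L[ℝ] ℝ)
    (f : M → N) (c : ℝ) (k : M → ℝ) (x : M) : Prop :=
  ∀ u : TangentSpace I x, β (f x) (mfderiv I J f x u) =
    c * α x u + (show ℝ from mfderiv I 𝓘(ℝ, ℝ) k x u)

lemma PB.congr {α : (x : M) → TangentSpace I x →L[ℝ] ℝ} {β : (x : N) → TangentSpace J x →L[ℝ] ℝ}
    {f f' : M → N} {c : ℝ} {k k' : M → ℝ} {x : M} (h : PB α β f c k x)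
    (hf : f' =ᶠ[𝓝 x] f) (hk : k' =ᶠ[𝓝 x] k) : PB α β f' c k' x := by
  intro u
  have h1 := tangentMap_congr_of_eventuallyEq (J := I) (I := J)
    (v := (⟨x, u⟩ : TangentBundle I M)) hf
  have h2 : β (f' x) (mfderiv I J f' x u) = β (f x) (mfderiv I J f x u) := form_congr' β h1
  rw [h2, h u, hk.mfderiv_eq]
  rfl

lemma PB.comp {α : (x : M) → TangentSpace I x →L[ℝ] ℝ} {β : (x : N) → TangentSpace J x →L[ℝ] ℝ}
    {γ : (x : P) → TangentSpace J' x →L[ℝ] ℝ}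
    {f : M → N} {g : N → P} {c c' : ℝ} {k : M → ℝ} {k' : N → ℝ} {x : M}
    (hg : PB β γ g c' k' (f x)) (hf : PB α β f c k x)
    (hfd : MDifferentiableAt I J f x) (hgd : MDifferentiableAt J J' g (f x))
    (hk : MDifferentiableAt I 𝓘(ℝ, ℝ) k x) (hk' : MDifferentiableAt J 𝓘(ℝ, ℝ) k' (f x)) :
    PB α γ (g ∘ f) (c' * c) (fun x => c' * k x + k' (f x)) x := by
  intro u
  have h1 := DFunLike.congr_fun (mfderiv_comp (I := I) (I' := J) (I'' := J') x hgd hfd) u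
  have h2 : γ ((g ∘ f) x) (mfderiv I J' (g ∘ f) x u) =
      γ (g (f x)) (mfderiv J J' g (f x) (mfderiv I J f x u)) := congrArg (γ (g (f x))) h1
  rw [h2, hg, hf]
  have h3 : MDifferentiableAt I 𝓘(ℝ, ℝ) (k' ∘ f) x := hk'.comp x hfd
  have h4 : HasMFDerivAt I 𝓘(ℝ, ℝ) (fun x => c' * k x + k' (f x)) x
      (c' • (show TangentSpace I x →L[ℝ] ℝ from mfderiv I 𝓘(ℝ, ℝ) k x) +
        (show TangentSpace I x →L[ℝ] ℝ from mfderiv I 𝓘(ℝ, ℝ) (k' ∘ f) x)) := by
    have h5 := hk.hasMFDerivAt.const_smul c'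
    exact h5.add h3.hasMFDerivAt
  have h6 := DFunLike.congr_fun h4.mfderiv u
  have h7 := DFunLike.congr_fun (mfderiv_comp (I := I) (I' := J) (I'' := 𝓘(ℝ, ℝ)) x hk' hfd) u
  have h8 : (show ℝ from mfderiv I 𝓘(ℝ, ℝ) (fun x => c' * k x + k' (f x)) x u) =
      c' * (show ℝ from mfderiv I 𝓘(ℝ, ℝ) k x u) +
        (show ℝ from mfderiv J 𝓘(ℝ, ℝ) k' (f x) (mfderiv I J f x u)) := by
    refine h6.trans ?_
    exact congrArg₂ (· + ·) rfl h7
  rw [h8]
  ring

/-- A local inverse of a map pulling back `β` to `α - dg`. -/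
lemma PB.inv {α : (x : M) → TangentSpace I x →L[ℝ] ℝ} {β : (x : N) → TangentSpace J x →L[ℝ] ℝ}
    {w' : M → N} {w : N → M} {g : M → ℝ} {ξ : N}
    (hw' : PB α β w' 1 (fun x => - g x) (w ξ)) (hinv : ∀ᶠ ζ in 𝓝 ξ, w' (w ζ) = ζ)
    (hwd : MDifferentiableAt J I w ξ) (hwd' : MDifferentiableAt I J w' (w ξ))
    (hg : MDifferentiableAt I 𝓘(ℝ, ℝ) g (w ξ)) :
    PB β α w 1 (fun ζ => g (w ζ)) ξ := by
  intro u
  have h1 := hw' (mfderiv J I w ξ u)
  have h2 : β (w' (w ξ)) (mfderiv I J w' (w ξ) (mfderiv J I w ξ u)) = β ξ u := by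
    have h3 : (w' ∘ w) =ᶠ[𝓝 ξ] id := hinv
    have h4 := tangentMap_congr_of_eventuallyEq (J := J) (I := J)
      (v := (⟨ξ, u⟩ : TangentBundle J N)) h3
    rw [tangentMap_id] at h4
    have h5 := form_congr' β h4
    have h6 := DFunLike.congr_fun (mfderiv_comp (I := J) (I' := I) (I'' := J) ξ hwd' hwd) u
    have h7 : β (w' (w ξ)) (mfderiv J J (w' ∘ w) ξ u) =
      β (w' (w ξ)) (mfderiv I J w' (w ξ) (mfderiv J I w ξ u)) := congrArg (β (w' (w ξ))) h6
    rw [← h7]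
    exact h5
  rw [h2] at h1
  have h3 : (show ℝ from mfderiv I 𝓘(ℝ, ℝ) (fun x => - g x) (w ξ) (mfderiv J I w ξ u)) =
      - (show ℝ from mfderiv I 𝓘(ℝ, ℝ) g (w ξ) (mfderiv J I w ξ u)) := by
    have := hg.hasMFDerivAt.neg
    exact DFunLike.congr_fun this.mfderiv _
  rw [h3] at h1
  have h7 := DFunLike.congr_fun (mfderiv_comp (I := J) (I' := I) (I'' := 𝓘(ℝ, ℝ)) ξ hg hwd) u
  have h8 : (show ℝ from mfderiv J 𝓘(ℝ, ℝ) (fun ζ => g (w ζ)) ξ u) =
      (show ℝ from mfderiv I 𝓘(ℝ, ℝ) g (w ξ) (mfderiv J I w ξ u)) := h7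
  rw [h8]
  linarith

end pull

end Pool.Agent.Helper186
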