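import Mathlib
import Pool.Agent.H66.L.S8.Helper186.Pull
import Pool.Agent.H66.L.S8.Helper186.Cutoff

/-! Isotopies through conformal exact maps are Hamiltonian. -/

open scoped Topology ContDiff Manifold
open Set Metric Bundle

noncomputable section

namespace Pool.Agent.Helper186

set_option linter.unusedSectionVars false

universe u

/-- The identity one-form on the real line. -/
def idForm (y : ℝ) : TangentSpace 𝓘(ℝ, ℝ) y →L[ℝ] ℝ := ContinuousLinearMap.id ℝ ℝ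

lemma smoothForm_idForm : SmoothForm (I := 𝓘(ℝ, ℝ)) idForm :=
  contMDiff_snd_tangentBundle_modelSpace ℝ 𝓘(ℝ, ℝ)

lemma extDer_idForm (y : ℝ) (u v : ℝ) : extDer 𝓘(ℝ, ℝ) idForm y u v = 0 := by
  have h1 : chartForm 𝓘(ℝ, ℝ) idForm y = fun _ => ContinuousLinearMap.id ℝ ℝ := by
    ext1 z
    have h2 : chartForm 𝓘(ℝ, ℝ) idForm y z =
      (ContinuousLinearMap.id ℝ ℝ).comp (mfderiv 𝓘(ℝ, ℝ) 𝓘(ℝ, ℝ) (id : ℝ → ℝ) z) := rfl
    rw [h2, mfderiv_id]
    rfl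
  unfold extDer
  rw [h1]
  simp

variable {E : Type u} [NormedAddCommGroup E] [NormedSpace ℝ E] [FiniteDimensional ℝ E]
  {H : Type*} [TopologicalSpace H] {I : ModelWithCorners ℝ E H} [I.Boundaryless]
  {M : Type*} [TopologicalSpace M] [ChartedSpace H M] [IsManifold I ∞ M]

/-- Symmetry of mixed derivatives of a real valued function on `ℝ × M`. -/
lemma hasDerivAt_mixed {k : ℝ × M → ℝ} {D : Set (ℝ × M)} (hD : IsOpen D)
    (hk : ContMDiffOn (𝓘(ℝ, ℝ).prod I) 𝓘(ℝ, ℝ) ∞ k D) {s : ℝ} {x : M} (hsx : (s, x) ∈ D)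
    (u : TangentSpace I x) :
    HasDerivAt (fun σ => (show ℝ from mfderiv I 𝓘(ℝ, ℝ) (fun x' => k (σ, x')) x u))
      (show ℝ from mfderiv I 𝓘(ℝ, ℝ) (fun x' => (show ℝ from dS 𝓘(ℝ, ℝ) k s x')) x u) s := by
  have h1 := hasDerivAt_variation (I := 𝓘(ℝ, ℝ)) (J := I) smoothForm_idForm hD hk hsx u
  refine h1.congr_deriv ?_
  have h2 : extDer 𝓘(ℝ, ℝ) idForm (k (s, x)) (dS 𝓘(ℝ, ℝ) k s x) (dX 𝓘(ℝ, ℝ) I k s x u) = 0 :=
    extDer_idForm _ _ _
  rw [h2, zero_add]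
  rfl

lemma contMDiffAt_dS_real {k : ℝ × M → ℝ} {D : Set (ℝ × M)} (hD : IsOpen D)
    (hk : ContMDiffOn (𝓘(ℝ, ℝ).prod I) 𝓘(ℝ, ℝ) ∞ k D) {p : ℝ × M} (hp : p ∈ D) :
    ContMDiffAt (𝓘(ℝ, ℝ).prod I) 𝓘(ℝ, ℝ) ∞
      (fun q : ℝ × M => (show ℝ from dS 𝓘(ℝ, ℝ) k q.1 q.2)) p :=
  smoothForm_idForm.comp (contMDiffAt_dS (I := 𝓘(ℝ, ℝ)) hD hk hp) le_rfl

lemma mdifferentiableAt_slice {E' : Type*} [NormedAddCommGroup E'] [NormedSpace ℝ E']
    {H' : Type*} [TopologicalSpace H'] {J : ModelWithCorners ℝ E' H'}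
    {N : Type*} [TopologicalSpace N] [ChartedSpace H' N] {i : ℝ × M → N} {D : Set (ℝ × M)}
    (hD : IsOpen D) (hi : ContMDiffOn (𝓘(ℝ, ℝ).prod I) J ∞ i D) {s : ℝ} {x : M}
    (hsx : (s, x) ∈ D) : MDifferentiableAt I J (fun x' => i (s, x')) x := by
  have h1 : ContMDiffAt (𝓘(ℝ, ℝ).prod I) J ∞ i (s, x) := hi.contMDiffAt (hD.mem_nhds hsx)
  have h2 : ContMDiffAt I J ∞ (fun x' => i (s, x')) x :=
    ContMDiffAt.comp x h1 (contMDiffAt_const.prodMk contMDiffAt_id)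
  exact h2.mdifferentiableAt (by simp)

lemma eventually_slice {D : Set (ℝ × M)} (hD : IsOpen D) {s : ℝ} {x : M}
    (hsx : (s, x) ∈ D) : ∀ᶠ x' in 𝓝 x, (s, x') ∈ D := by
  have : ContinuousAt (fun x' : M => (s, x')) x := by fun_prop
  exact this.preimage_mem_nhds (hD.mem_nhds hsx)

lemma eventually_slice' {D : Set (ℝ × M)} (hD : IsOpen D) {s : ℝ} {x : M}
    (hsx : (s, x) ∈ D) : ∀ᶠ σ in 𝓝 s, (σ, x) ∈ D := by
  have : ContinuousAt (fun σ : ℝ => (σ, x)) s := by fun_prop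
  exact this.preimage_mem_nhds (hD.mem_nhds hsx)

/-- The Hamiltonian generating the isotopy `i` with fibrewise inverse `j`, where `i` pulls back
the form `lam` to a constant multiple of `lam` plus `dk`. -/
def isoHam (lam : (x : M) → TangentSpace I x →L[ℝ] ℝ) (i j : ℝ × M → M) (k : ℝ × M → ℝ)
    (p : ℝ × M) : ℝ :=
  (show ℝ from dS 𝓘(ℝ, ℝ) k p.1 (j p)) - lam (i (p.1, j p)) (dS I i p.1 (j p))

theorem isotopy_hamiltonian {lam : (x : M) → TangentSpace I x →L[ℝ] ℝ} (hlam : SmoothForm lam)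
    {i j : ℝ × M → M} {D D' : Set (ℝ × M)} (hD : IsOpen D) (hD' : IsOpen D')
    (hi : ContMDiffOn (𝓘(ℝ, ℝ).prod I) I ∞ i D) (hj : ContMDiffOn (𝓘(ℝ, ℝ).prod I) I ∞ j D')
    (hij : ∀ s x, (s, x) ∈ D → (s, i (s, x)) ∈ D' ∧ j (s, i (s, x)) = x)
    (hji : ∀ s y, (s, y) ∈ D' → (s, j (s, y)) ∈ D ∧ i (s, j (s, y)) = y)
    {k : ℝ × M → ℝ} (hk : ContMDiffOn (𝓘(ℝ, ℝ).prod I) 𝓘(ℝ, ℝ) ∞ k D) {c : ℝ}
    (hpb : ∀ s x, (s, x) ∈ D → PB lam lam (fun x' => i (s, x')) c (fun x' => k (s, x')) x) :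
    ContMDiffOn (𝓘(ℝ, ℝ).prod I) 𝓘(ℝ, ℝ) ∞ (isoHam lam i j k) D' ∧
    ∀ s x, (s, x) ∈ D →
      isoHam lam i j k (s, i (s, x)) =
        (show ℝ from dS 𝓘(ℝ, ℝ) k s x) - lam (i (s, x)) (dS I i s x) ∧
      ∀ v : TangentSpace I (i (s, x)), extDer I lam (i (s, x)) (dS I i s x) v =
        (show ℝ from mfderiv I 𝓘(ℝ, ℝ) (fun y => isoHam lam i j k (s, y)) (i (s, x)) v) := by
  set h : ℝ × M → ℝ := fun p => (show ℝ from dS 𝓘(ℝ, ℝ) k p.1 p.2) -
    lam (i p) (dS I i p.1 p.2) with hh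
  have hhs : ContMDiffOn (𝓘(ℝ, ℝ).prod I) 𝓘(ℝ, ℝ) ∞ h D := by
    intro p hp
    have h1 := contMDiffAt_dS_real hD hk hp
    have h2 : ContMDiffAt (𝓘(ℝ, ℝ).prod I) 𝓘(ℝ, ℝ) ∞
      (fun q : ℝ × M => lam (i q) (dS I i q.1 q.2)) p :=
      hlam.comp (contMDiffAt_dS hD hi hp) le_rfl
    exact (h1.sub h2).contMDiffWithinAt
  have hHh : ∀ p, isoHam lam i j k p = h (p.1, j p) := fun p => rfl
  have hHs : ContMDiffOn (𝓘(ℝ, ℝ).prod I) 𝓘(ℝ, ℝ) ∞ (isoHam lam i j k) D' := by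
    have h1 : ContMDiffOn (𝓘(ℝ, ℝ).prod I) 𝓘(ℝ, ℝ) ∞ (h ∘ fun p : ℝ × M => (p.1, j p)) D' := by
      refine hhs.comp (contMDiffOn_fst.prodMk hj) ?_
      intro p hp
      exact (hji p.1 p.2 hp).1
    exact h1
  refine ⟨hHs, ?_⟩
  intro s x hsx
  have hHi : ∀ x', (s, x') ∈ D → isoHam lam i j k (s, i (s, x')) = h (s, x') := by
    intro x' hx'
    rw [hHh]
    simp only
    rw [(hij s x' hx').2]
  refine ⟨hHi x hsx, ?_⟩
  -- the derivative of the pull back equation with respect to time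
  have key : ∀ u : TangentSpace I x,
      extDer I lam (i (s, x)) (dS I i s x) (dX I I i s x u) =
        (show ℝ from mfderiv I 𝓘(ℝ, ℝ) (fun x' => h (s, x')) x u) := by
    intro u
    have h1 := hasDerivAt_variation hlam hD hi hsx u
    have h2 := (hasDerivAt_mixed hD hk hsx u).const_add (c * lam x u)
    have h3 : (fun σ => lam (i (σ, x)) (dX I I i σ x u)) =ᶠ[𝓝 s] fun σ => c * lam x u +
        (show ℝ from mfderiv I 𝓘(ℝ, ℝ) (fun x' => k (σ, x')) x u) := by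
      filter_upwards [eventually_slice' hD hsx] with σ hσ
      exact hpb σ x hσ u
    have h4 := h1.unique (h2.congr_of_eventuallyEq h3)
    have h5 : MDifferentiableAt I 𝓘(ℝ, ℝ)
        (fun x' => (show ℝ from dS 𝓘(ℝ, ℝ) k s x')) x :=
      mdifferentiableAt_slice (i := fun q : ℝ × M => (show ℝ from dS 𝓘(ℝ, ℝ) k q.1 q.2)) hD
        (fun p hp => (contMDiffAt_dS_real hD hk hp).contMDiffWithinAt) hsx
    have h6 : MDifferentiableAt I 𝓘(ℝ, ℝ) (fun x' => lam (i (s, x')) (dS I i s x')) x :=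
      mdifferentiableAt_slice (i := fun q : ℝ × M => lam (i q) (dS I i q.1 q.2)) hD
        (fun p hp => (hlam.comp (contMDiffAt_dS hD hi hp) le_rfl).contMDiffWithinAt) hsx
    have h7 := DFunLike.congr_fun (h5.hasMFDerivAt.sub h6.hasMFDerivAt).mfderiv u
    have h8 : (show ℝ from mfderiv I 𝓘(ℝ, ℝ) (fun x' => h (s, x')) x u) =
        (show ℝ from mfderiv I 𝓘(ℝ, ℝ) (fun x' => (show ℝ from dS 𝓘(ℝ, ℝ) k s x')) x u) -
        (show ℝ from mfderiv I 𝓘(ℝ, ℝ) (fun x' => lam (i (s, x')) (dS I i s x')) x u) := h7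
    rw [h8]
    linarith
  -- surjectivity
  intro v
  have hj' : MDifferentiableAt I I (fun y => j (s, y)) (i (s, x)) :=
    mdifferentiableAt_slice hD' hj (hij s x hsx).1
  have hji' : (fun y => i (s, j (s, y))) =ᶠ[𝓝 (i (s, x))] id := by
    filter_upwards [eventually_slice hD' (hij s x hsx).1] with y hy
    exact (hji s y hy).2
  have hxj : j (s, i (s, x)) = x := (hij s x hsx).2
  have hi' : MDifferentiableAt I I (fun x' => i (s, x')) (j (s, i (s, x))) := by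
    rw [hxj]; exact mdifferentiableAt_slice hD hi hsx
  obtain ⟨u, hu⟩ : ∃ u : TangentSpace I x, dX I I i s x u = v := by
    have h1 := mfderiv_comp (I := I) (I' := I) (I'' := I) (i (s, x)) hi' hj'
    have h2 : mfderiv I I ((fun x' => i (s, x')) ∘ (fun y => j (s, y))) (i (s, x)) v = v := by
      have h3 := tangentMap_congr_of_eventuallyEq (J := I) (I := I)
        (v := (⟨i (s, x), v⟩ : TangentBundle I M)) hji'
      rw [tangentMap_id] at h3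
      simp only [tangentMap, id] at h3
      have h4 := (TotalSpace.mk.injEq _ _ _ _ ▸ h3)
      exact eq_of_heq h4.2
    rw [h1] at h2
    refine ⟨(show TangentSpace I x from mfderiv I I (fun y => j (s, y)) (i (s, x)) v), ?_⟩
    have h5 : ∀ z, z = x → ∀ w : E, (mfderiv I I (fun x' => i (s, x')) z w : E) =
        (mfderiv I I (fun x' => i (s, x')) x w : E) := by
      rintro z rfl w; rfl
    exact (h5 _ hxj _).symm.trans h2
  rw [← hu, key u]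
  -- derivative of `H_s ∘ i_s = h_s`
  have hH' : MDifferentiableAt I 𝓘(ℝ, ℝ) (fun y => isoHam lam i j k (s, y)) (i (s, x)) :=
    mdifferentiableAt_slice hD' hHs (hij s x hsx).1
  have h1 := mfderiv_comp (I := I) (I' := I) (I'' := 𝓘(ℝ, ℝ)) x hH'
    (mdifferentiableAt_slice hD hi hsx)
  have h2 : ((fun y => isoHam lam i j k (s, y)) ∘ fun x' => i (s, x')) =ᶠ[𝓝 x]
      fun x' => h (s, x') := by
    filter_upwards [eventually_slice hD hsx] with x' hx'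
    exact hHi x' hx'
  have h3 := h2.mfderiv_eq (I := I) (I' := 𝓘(ℝ, ℝ))
  have h4 : (show ℝ from mfderiv I 𝓘(ℝ, ℝ) (fun x' => h (s, x')) x u) =
    (show ℝ from mfderiv I 𝓘(ℝ, ℝ) ((fun y => isoHam lam i j k (s, y)) ∘ fun x' => i (s, x'))
      x u) := (DFunLike.congr_fun h3 u).symm
  rw [h4]
  exact DFunLike.congr_fun h1 u

end Pool.Agent.Helper186
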