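import Mathlib
import Pool.Agent.H66.L.S8.Helper186.Isotopy

/-! Pull backs, exact forms and linear combinations of one-forms. -/

open scoped Topology ContDiff Manifold
open Set Metric Bundle

noncomputable section

namespace Pool.Agent.Helper186

set_option linter.unusedSectionVars false

variable {E : Type*} [NormedAddCommGroup E] [NormedSpace ℝ E] [FiniteDimensional ℝ E]
  {H : Type*} [TopologicalSpace H] {I : ModelWithCorners ℝ E H} [I.Boundaryless]
  {X : Type*} [TopologicalSpace X] [ChartedSpace H X] [IsManifold I ∞ X]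
  {E' : Type*} [NormedAddCommGroup E'] [NormedSpace ℝ E'] [FiniteDimensional ℝ E']
  {H' : Type*} [TopologicalSpace H'] {J : ModelWithCorners ℝ E' H'} [J.Boundaryless]
  {N : Type*} [TopologicalSpace N] [ChartedSpace H' N] [IsManifold J ∞ N]

variable (I J) in
/-- Pull back of a one-form. -/
def pullForm (G : N → X) (β : (x : X) → TangentSpace I x →L[ℝ] ℝ) (ξ : N) :
    TangentSpace J ξ →L[ℝ] ℝ := (β (G ξ)).comp (mfderiv J I G ξ)

lemma pullForm_apply (G : N → X) (β : (x : X) → TangentSpace I x →L[ℝ] ℝ) (ξ : N)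
    (u : TangentSpace J ξ) : pullForm I J G β ξ u = β (G ξ) (mfderiv J I G ξ u) := rfl

lemma smoothForm_pull {G : N → X} (hG : ContMDiff J I ∞ G)
    {β : (x : X) → TangentSpace I x →L[ℝ] ℝ} (hβ : SmoothForm β) :
    SmoothForm (pullForm I J G β) := by
  intro V
  have h1 : ContMDiff J.tangent I.tangent ∞ (tangentMap J I G) := hG.contMDiff_tangentMap (by simp)
  exact (hβ _).comp V (h1 V)

/-- The derivative of the inverse chart at its centre. -/
lemma mfderiv_extChartAt_symm_self (ξ : N) (u : E') :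
    mfderiv 𝓘(ℝ, E') J (extChartAt J ξ).symm (extChartAt J ξ ξ) u = u := by
  have hx : ξ ∈ (chartAt H' ξ).source := mem_chart_source H' ξ
  have h1 := TangentBundle.symmL_trivializationAt (I := J) hx
  rw [J.range_eq_univ, mfderivWithin_univ] at h1
  have h2 : (trivializationAt E' (TangentSpace J) ξ).symmL ℝ ξ u = u := by
    have h3 := TangentBundle.symmL_trivializationAt_eq_core (I := J) hx
    rw [h3]
    exact (tangentBundleCore J N).coordChange_self _ _ (by simp) u
  rw [h1] at h2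
  exact h2

lemma extDer_pull {G : N → X} (hG : ContMDiff J I ∞ G)
    {β : (x : X) → TangentSpace I x →L[ℝ] ℝ} (hβ : SmoothForm β) (ξ : N)
    (u v : TangentSpace J ξ) :
    extDer J (pullForm I J G β) ξ u v =
      extDer I β (G ξ) (mfderiv J I G ξ u) (mfderiv J I G ξ v) := by
  set ψ := extChartAt J ξ with hψ
  have hψo : IsOpen ψ.target := isOpen_extChartAt_target ξ
  have hψs : ContMDiffOn 𝓘(ℝ, E') J ∞ ψ.symm ψ.target := contMDiffOn_extChartAt_symm ξ
  have hy : ψ ξ ∈ ψ.target := mem_extChartAt_target ξ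
  have h1 := extDer_pullback (smoothForm_pull hG hβ) hψo hψs hy (u : E') (v : E')
  have h2 := extDer_pullback hβ hψo (hG.comp_contMDiffOn hψs) hy (u : E') (v : E')
  have hGψ : ∀ q ∈ ψ.target, ∀ w : E', mfderiv 𝓘(ℝ, E') I (G ∘ ψ.symm) q w =
      mfderiv J I G (ψ.symm q) (mfderiv 𝓘(ℝ, E') J ψ.symm q w) := by
    intro q hq w
    have h3 := mfderiv_comp (I := 𝓘(ℝ, E')) (I' := J) (I'' := I) q
      (hG.mdifferentiableAt (by simp) (x := ψ.symm q))
      ((hψs.contMDiffAt (hψo.mem_nhds hq)).mdifferentiableAt (by simp))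
    exact DFunLike.congr_fun h3 w
  -- the right hand sides agree
  have h3 : ∀ w : E', (fun q => pullForm I J G β (ψ.symm q) (mfderiv 𝓘(ℝ, E') J ψ.symm q w))
      =ᶠ[𝓝 (ψ ξ)] fun q => β ((G ∘ ψ.symm) q) (mfderiv 𝓘(ℝ, E') I (G ∘ ψ.symm) q w) := by
    intro w
    filter_upwards [hψo.mem_nhds hy] with q hq
    rw [pullForm_apply, hGψ q hq]
    rfl
  have h4 := congrArg₂ (fun a b : ℝ => a - b)
    (congrArg (fun L : E' →L[ℝ] ℝ => L u) (h3 v).fderiv_eq)
    (congrArg (fun L : E' →L[ℝ] ℝ => L v) (h3 u).fderiv_eq)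
  have h5 := h1.trans (h4.trans h2.symm)
  -- simplify the points
  have hsym : ψ.symm (ψ ξ) = ξ := ψ.left_inv (mem_extChartAt_source ξ)
  have e1 : extDer J (pullForm I J G β) (ψ.symm (ψ ξ))
      (mfderiv 𝓘(ℝ, E') J ψ.symm (ψ ξ) (show E' from u))
      (mfderiv 𝓘(ℝ, E') J ψ.symm (ψ ξ) (show E' from v)) =
      extDer J (pullForm I J G β) ξ u v := by
    have e2 : ∀ (z : N), z = ξ → ∀ a b a' b' : E', a = a' → b = b' →
        extDer J (pullForm I J G β) z a b = extDer J (pullForm I J G β) ξ a' b' := by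
      rintro z rfl a b a' b' rfl rfl; rfl
    exact e2 _ hsym _ _ _ _ (mfderiv_extChartAt_symm_self ξ (show E' from u))
      (mfderiv_extChartAt_symm_self ξ (show E' from v))
  have e3 : extDer I β ((G ∘ ψ.symm) (ψ ξ))
      (mfderiv 𝓘(ℝ, E') I (G ∘ ψ.symm) (ψ ξ) (show E' from u))
      (mfderiv 𝓘(ℝ, E') I (G ∘ ψ.symm) (ψ ξ) (show E' from v)) =
      extDer I β (G ξ) (mfderiv J I G ξ u) (mfderiv J I G ξ v) := by
    have e2 : ∀ (z : X), z = G ξ → ∀ a b a' b' : E, a = a' → b = b' →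
        extDer I β z a b = extDer I β (G ξ) a' b' := by
      rintro z rfl a b a' b' rfl rfl; rfl
    have e4 : ∀ w : E', (mfderiv 𝓘(ℝ, E') I (G ∘ ψ.symm) (ψ ξ) w : E) =
        (mfderiv J I G ξ w : E) := by
      intro w
      have e5 := hGψ (ψ ξ) hy w
      refine e5.trans ?_
      have e6 : ∀ (z : N), z = ξ → ∀ a a' : E', a = a' →
        (mfderiv J I G z a : E) = (mfderiv J I G ξ a' : E) := by
        rintro z rfl a a' rfl; rfl
      exact e6 _ hsym _ _ (mfderiv_extChartAt_symm_self ξ w)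
    exact e2 _ (congrArg G hsym) _ _ _ _ (e4 u) (e4 v)
  exact e1.symm.trans (h5.trans e3)

variable (J) in
/-- The differential of a function as a one-form. -/
def dForm (h : N → ℝ) (ξ : N) : TangentSpace J ξ →L[ℝ] ℝ := mfderiv J 𝓘(ℝ, ℝ) h ξ

lemma dForm_eq (h : N → ℝ) : dForm J h = pullForm 𝓘(ℝ, ℝ) J h idForm := by
  ext1 ξ
  refine ContinuousLinearMap.ext fun u => ?_
  rfl

lemma smoothForm_dForm {h : N → ℝ} (hh : ContMDiff J 𝓘(ℝ, ℝ) ∞ h) : SmoothForm (dForm J h) := by
  rw [dForm_eq]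
  exact smoothForm_pull hh smoothForm_idForm

lemma extDer_dForm {h : N → ℝ} (hh : ContMDiff J 𝓘(ℝ, ℝ) ∞ h) (ξ : N)
    (u v : TangentSpace J ξ) : extDer J (dForm J h) ξ u v = 0 := by
  rw [dForm_eq, extDer_pull hh smoothForm_idForm]
  exact extDer_idForm _ _ _

lemma SmoothForm.add {α β : (ξ : N) → TangentSpace J ξ →L[ℝ] ℝ} (hα : SmoothForm α)
    (hβ : SmoothForm β) : SmoothForm (fun ξ => α ξ + β ξ) :=
  fun V => (hα V).add (hβ V)

lemma extDer_add {α β : (ξ : N) → TangentSpace J ξ →L[ℝ] ℝ} (hα : SmoothForm α)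
    (hβ : SmoothForm β) (ξ : N) (u v : TangentSpace J ξ) :
    extDer J (fun ξ => α ξ + β ξ) ξ u v = extDer J α ξ u v + extDer J β ξ u v := by
  have h1 : chartForm J (fun ξ => α ξ + β ξ) ξ = fun y => chartForm J α ξ y +
      chartForm J β ξ y := by
    ext1 y
    refine ContinuousLinearMap.ext fun w => ?_
    rfl
  have hd : ∀ {γ : (ξ : N) → TangentSpace J ξ →L[ℝ] ℝ}, SmoothForm γ →
      DifferentiableAt ℝ (chartForm J γ ξ) (extChartAt J ξ ξ) := fun hγ =>
    ((contDiffOn_chartForm hγ ξ).contDiffAt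
      (extChartAt_target_mem_nhds ξ)).differentiableAt (by simp)
  have h2 := ((hd hα).hasFDerivAt.add (hd hβ).hasFDerivAt).fderiv
  unfold extDer
  rw [h1]
  have h3 : fderiv ℝ (fun y => chartForm J α ξ y + chartForm J β ξ y) (extChartAt J ξ ξ) =
    fderiv ℝ (chartForm J α ξ) (extChartAt J ξ ξ) +
      fderiv ℝ (chartForm J β ξ) (extChartAt J ξ ξ) := h2
  rw [h3]
  simp only [add_apply]
  ring

end Pool.Agent.Helper186
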